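import Pool.Agent.Helper35.HS3.GoalsA

/-!
# Project HS3 (MP_66e6f4_an): packet SOB
-/

namespace Pool.Agent.Helper79.HS3.SOB

open MeasureTheory Set Filter Topology Metric
open scoped ContDiff ENNReal NNReal
open Pool.Agent.Helper35.HS3

theorem pd_zero_of {χ : E → ℝ} {x : E} (h : χ =ᶠ[𝓝 x] fun _ => 0) (i : Fin 3) : pd i χ x = 0 := by
  rw [pd_congr h]
  simp

theorem gsq_zero_of {χ : E → ℝ} {x : E} (h : χ =ᶠ[𝓝 x] fun _ => 0) : gsq χ x = 0 := by
  unfold gsq
  refine Finset.sum_eq_zero fun i _ => ?_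
  rw [pd_zero_of h i]
  norm_num

theorem hasCompactSupport_gsq {g : E → ℝ} (hgc : HasCompactSupport g) :
    HasCompactSupport (gsq g) := by
  refine HasCompactSupport.intro hgc.isCompact fun x hx => ?_
  exact gsq_zero_of (notMem_tsupport_iff_eventuallyEq.1 hx)

theorem sqrt_form {α : Type*} [MeasurableSpace α] {G : Type*} [NormedAddCommGroup G]
    {μ : Measure α} {f : α → G} (hf : MemLp f 2 μ) :
    eLpNorm f 2 μ = ENNReal.ofReal (√(∫ x, ‖f x‖ ^ 2 ∂μ)) := by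
  rw [hf.eLpNorm_eq_integral_rpow_norm (by norm_num) (by norm_num)]
  congr 1
  rw [Real.sqrt_eq_rpow]
  norm_num

theorem holder_sob : ∃ S : ℝ, 0 ≤ S ∧ ∀ (g : E → ℝ) (A : Set E) (t : ℝ), ContDiff ℝ 1 g →
    HasCompactSupport g → MeasurableSet A → volume A ≠ ⊤ → 0 ≤ t → volume.real A ≤ t ^ 3 →
    ∫ x in A, g x ^ 2 ≤ S * t ^ 2 * ∫ x, gsq g x := by
  set c : ℝ≥0 := SNormLESNormFDerivOfEqConst ℝ (volume : Measure E) 2 with hc
  refine ⟨(c : ℝ) ^ 2, by positivity, ?_⟩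
  intro g A t hg hgc hA hAf ht hvol
  have h1 : eLpNorm g 6 volume ≤ c * eLpNorm (fderiv ℝ g) 2 volume := by
    have := eLpNorm_le_eLpNorm_fderiv_of_eq (μ := (volume : Measure E)) hg hgc
      (p := 2) (p' := 6) (by norm_num) (by simp) (by simp; norm_num)
    simpa using this
  have hcont := hg.continuous
  have h2 : eLpNorm g 2 (volume.restrict A) ≤
      eLpNorm g 6 (volume.restrict A) * ENNReal.ofReal t := by
    have h3 := eLpNorm_le_eLpNorm_mul_rpow_measure_univ (μ := (volume : Measure E).restrict A)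
      (f := g) (p := 2) (q := 6) (by norm_num) hcont.aestronglyMeasurable
    refine h3.trans ?_
    gcongr
    rw [Measure.restrict_apply_univ]
    have h4 : volume A ≤ ENNReal.ofReal t ^ (3 : ℝ) := by
      rw [← ENNReal.ofReal_toReal hAf, ENNReal.ofReal_rpow_of_nonneg ht (by norm_num)]
      refine ENNReal.ofReal_le_ofReal ?_
      have e : t ^ (3 : ℝ) = t ^ 3 := by norm_cast
      rw [e]
      exact hvol
    have h5 : (1 / (2 : ℝ≥0∞).toReal - 1 / (6 : ℝ≥0∞).toReal) = 1 / 3 := by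
      simp
      norm_num
    rw [h5]
    calc volume A ^ (1 / 3 : ℝ) ≤ (ENNReal.ofReal t ^ (3 : ℝ)) ^ (1 / 3 : ℝ) :=
          ENNReal.rpow_le_rpow h4 (by norm_num)
      _ = ENNReal.ofReal t := by
          rw [← ENNReal.rpow_mul]
          norm_num
  have h3 : eLpNorm g 6 (volume.restrict A) ≤ eLpNorm g 6 volume :=
    eLpNorm_mono_measure _ Measure.restrict_le_self
  have hm1 : MemLp g 2 (volume.restrict A) :=
    (hcont.memLp_of_hasCompactSupport hgc).restrict A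
  have hfc : Continuous (fderiv ℝ g) := hg.continuous_fderiv (by norm_num)
  have hm2 : MemLp (fderiv ℝ g) 2 volume :=
    hfc.memLp_of_hasCompactSupport (hgc.fderiv ℝ)
  have h6 : eLpNorm g 2 (volume.restrict A) ≤
      c * eLpNorm (fderiv ℝ g) 2 volume * ENNReal.ofReal t :=
    h2.trans (mul_le_mul_left (h3.trans h1) _)
  rw [sqrt_form hm1, sqrt_form hm2] at h6
  set a : ℝ := ∫ x in A, ‖g x‖ ^ 2 with ha
  set b : ℝ := ∫ x, ‖fderiv ℝ g x‖ ^ 2 with hb
  have ha0 : 0 ≤ a := integral_nonneg fun _ => by positivity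
  have hb0 : 0 ≤ b := integral_nonneg fun _ => by positivity
  have h7 : √a ≤ c * √b * t := by
    have e : (c : ℝ≥0∞) * ENNReal.ofReal √b * ENNReal.ofReal t = ENNReal.ofReal (c * √b * t) := by
      rw [ENNReal.ofReal_mul (by positivity), ENNReal.ofReal_mul (by positivity)]
      simp
    rw [e] at h6
    exact (ENNReal.ofReal_le_ofReal_iff (by positivity)).1 h6
  have h8 : a ≤ (c : ℝ) ^ 2 * b * t ^ 2 := by
    have h9 : (√a) ^ 2 ≤ (c * √b * t) ^ 2 := by gcongr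
    rw [Real.sq_sqrt ha0, mul_pow, mul_pow, Real.sq_sqrt hb0] at h9
    exact h9
  have h10 : ∫ x in A, g x ^ 2 = a := by
    rw [ha]
    refine integral_congr_ae (Eventually.of_forall fun x => ?_)
    simp
  have h11 : b ≤ ∫ x, gsq g x := by
    rw [hb]
    apply integral_mono
    · have hcs : HasCompactSupport fun x => ‖fderiv ℝ g x‖ ^ 2 :=
        (hgc.fderiv ℝ).comp_left (g := fun L : E →L[ℝ] ℝ => ‖L‖ ^ 2) (by simp)
      have hct : Continuous fun x => ‖fderiv ℝ g x‖ ^ 2 := hfc.norm.pow 2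
      exact hct.integrable_of_hasCompactSupport hcs
    · exact (continuous_gsq hg).integrable_of_hasCompactSupport (hasCompactSupport_gsq hgc)
    · intro x
      exact norm_fderiv_sq_le g x
  rw [h10]
  calc a ≤ (c : ℝ) ^ 2 * b * t ^ 2 := h8
    _ ≤ (c : ℝ) ^ 2 * (∫ x, gsq g x) * t ^ 2 := by gcongr
    _ = _ := by ring

/-- One step of the iteration. -/
theorem step (hCUT : CUT_stmt) (m : E → ℝ) (C : ℝ) (hm : ContDiff ℝ 1 m) (hm0 : ∀ x, 0 ≤ m x)
    (hen : ∀ ζ : E → ℝ, ContDiff ℝ 1 ζ → HasCompactSupport ζ →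
      ∫ x, ζ x ^ 2 * gsq m x ≤ C * ∫ x, m x ^ 2 * gsq ζ x) :
    ∃ K : ℝ, 0 ≤ K ∧ ∀ R η : ℝ, 0 < R → 0 ≤ η →
      volume.real {x | x ∈ ball (0 : E) R ∧ 0 < m x} ≤ η ^ 3 * R ^ 3 →
      ∫ x in ball (0 : E) R, m x ^ 2 ≤ K * η ^ 2 * ∫ x in ball (0 : E) (3 * R), m x ^ 2 := by
  obtain ⟨S, hS, hHS⟩ := holder_sob
  obtain ⟨C₁, hC₁, hcut⟩ := hCUT
  refine ⟨S * (2 * max C 0 + 2) * (3 * C₁ ^ 2), by positivity, ?_⟩
  intro R η hR hη hvol
  obtain ⟨χ, hχ1, hχ2, hχ3, hχ4, hχ5, hχ6, -⟩ := hcut R hR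
  have hχ : ContDiff ℝ 1 χ := hχ1.of_le (by norm_num)
  set A : Set E := {x | x ∈ ball (0 : E) R ∧ 0 < m x} with hA
  have hAo : IsOpen A := isOpen_ball.inter (isOpen_lt continuous_const hm.continuous)
  have hAb : A ⊆ ball 0 R := fun x hx => hx.1
  have hAf : volume A ≠ ⊤ := ((measure_mono hAb).trans_lt measure_ball_lt_top).ne
  set g : E → ℝ := fun x => χ x * m x with hg
  have hgd : ContDiff ℝ 1 g := hχ.mul hm
  have hgc : HasCompactSupport g := hχ2.mul_right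
  have e1 : ∫ x in ball (0 : E) R, m x ^ 2 = ∫ x in A, m x ^ 2 := by
    refine setIntegral_eq_of_subset_of_forall_sdiff_eq_zero measurableSet_ball hAb ?_
    intro x hx
    have : ¬ 0 < m x := fun h => hx.2 ⟨hx.1, h⟩
    have h0 : m x = 0 := le_antisymm (not_lt.1 this) (hm0 x)
    rw [h0]; norm_num
  have e2 : ∫ x in A, m x ^ 2 = ∫ x in A, g x ^ 2 := by
    refine setIntegral_congr_fun hAo.measurableSet fun x hx => ?_
    have hxR : ‖x‖ ≤ R := by
      have := hx.1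
      rw [mem_ball, dist_zero_right] at this
      exact this.le
    simp only [hg, hχ4 x hxR, one_mul]
  have h1 := hHS g A (η * R) hgd hgc hAo.measurableSet hAf (by positivity)
    (by rw [mul_pow]; exact hvol)
  -- the gradient of `g`
  have hχs : HasCompactSupport fun x => χ x ^ 2 :=
    hχ2.comp_left (g := fun t : ℝ => t ^ 2) (by norm_num)
  have hχc : Continuous fun x => χ x ^ 2 := hχ.continuous.pow 2
  have i1 : Integrable fun x => χ x ^ 2 * gsq m x :=
    (hχc.mul (continuous_gsq hm)).integrable_of_hasCompactSupport (hχs.mul_right (f' := gsq m))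
  have i2 : Integrable fun x => m x ^ 2 * gsq χ x :=
    ((hm.continuous.pow 2).mul (continuous_gsq hχ)).integrable_of_hasCompactSupport
      (HasCompactSupport.mul_left (hasCompactSupport_gsq hχ2))
  have hpt : ∀ x, gsq g x ≤ 2 * (χ x ^ 2 * gsq m x) + 2 * (m x ^ 2 * gsq χ x) := by
    intro x
    unfold gsq
    rw [Finset.mul_sum, Finset.mul_sum, Finset.mul_sum, Finset.mul_sum, ← Finset.sum_add_distrib]
    refine Finset.sum_le_sum fun i _ => ?_
    have hp : pd i g x = χ x * pd i m x + m x * pd i χ x :=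
      pd_mul (diff_of_one hχ x) (diff_of_one hm x)
    rw [hp]
    nlinarith [sq_nonneg (χ x * pd i m x - m x * pd i χ x)]
  have h2 : ∫ x, gsq g x ≤ 2 * (∫ x, χ x ^ 2 * gsq m x) + 2 * ∫ x, m x ^ 2 * gsq χ x := by
    rw [← integral_const_mul, ← integral_const_mul, ← integral_add (i1.const_mul 2) (i2.const_mul 2)]
    refine integral_mono ((continuous_gsq hgd).integrable_of_hasCompactSupport
      (hasCompactSupport_gsq hgc)) ((i1.const_mul 2).add (i2.const_mul 2)) hpt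
  have hq0 : 0 ≤ ∫ x, m x ^ 2 * gsq χ x :=
    integral_nonneg fun x => mul_nonneg (sq_nonneg _) (gsq_nonneg _ _)
  have h3 : ∫ x, χ x ^ 2 * gsq m x ≤ max C 0 * ∫ x, m x ^ 2 * gsq χ x :=
    (hen χ hχ hχ2).trans (mul_le_mul_of_nonneg_right (le_max_left _ _) hq0)
  have h4 : ∫ x, m x ^ 2 * gsq χ x ≤ 3 * C₁ ^ 2 / R ^ 2 * ∫ x in ball (0 : E) (3 * R), m x ^ 2 := by
    have e3 : ∫ x, m x ^ 2 * gsq χ x = ∫ x in ball (0 : E) (3 * R), m x ^ 2 * gsq χ x := by
      symm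
      refine setIntegral_eq_integral_of_forall_compl_eq_zero fun x hx => ?_
      have hx3 : 3 * R ≤ ‖x‖ := by
        rw [mem_ball, dist_zero_right, not_lt] at hx
        exact hx
      have hev : χ =ᶠ[𝓝 x] fun _ => 0 := by
        have ho : IsOpen {y : E | 2 * R < ‖y‖} := isOpen_lt continuous_const continuous_norm
        filter_upwards [ho.mem_nhds (show 2 * R < ‖x‖ by linarith)] with y hy
        exact hχ5 y (le_of_lt hy)
      rw [gsq_zero_of hev, mul_zero]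
    rw [e3, ← integral_const_mul]
    refine setIntegral_mono_on i2.integrableOn
      ((integrableOn_ball (hm.continuous.pow 2) 0 (3 * R)).const_mul _) measurableSet_ball ?_
    intro x _
    have hgχ : gsq χ x ≤ 3 * C₁ ^ 2 / R ^ 2 := by
      unfold gsq
      rw [Fin.sum_univ_three]
      have hb : ∀ i : Fin 3, pd i χ x ^ 2 ≤ C₁ ^ 2 / R ^ 2 := by
        intro i
        have := hχ6 x i
        rw [← div_pow, ← sq_abs (pd i χ x)]
        gcongr
      have := hb 0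
      have := hb 1
      have := hb 2
      have e4 : 3 * C₁ ^ 2 / R ^ 2 = C₁ ^ 2 / R ^ 2 + C₁ ^ 2 / R ^ 2 + C₁ ^ 2 / R ^ 2 := by ring
      rw [e4]
      linarith
    calc m x ^ 2 * gsq χ x ≤ m x ^ 2 * (3 * C₁ ^ 2 / R ^ 2) :=
          mul_le_mul_of_nonneg_left hgχ (sq_nonneg _)
      _ = _ := by ring
  set J : ℝ := ∫ x in ball (0 : E) (3 * R), m x ^ 2 with hJ
  have hmax : 0 ≤ max C 0 := le_max_right _ _
  rw [e1, e2]
  calc ∫ x in A, g x ^ 2 ≤ S * (η * R) ^ 2 * ∫ x, gsq g x := h1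
    _ ≤ S * (η * R) ^ 2 * ((2 * max C 0 + 2) * (3 * C₁ ^ 2 / R ^ 2 * J)) := by
        apply mul_le_mul_of_nonneg_left _ (by positivity)
        calc ∫ x, gsq g x ≤ 2 * (∫ x, χ x ^ 2 * gsq m x) + 2 * ∫ x, m x ^ 2 * gsq χ x := h2
          _ ≤ 2 * (max C 0 * ∫ x, m x ^ 2 * gsq χ x) + 2 * ∫ x, m x ^ 2 * gsq χ x := by linarith
          _ = (2 * max C 0 + 2) * ∫ x, m x ^ 2 * gsq χ x := by ring
          _ ≤ _ := mul_le_mul_of_nonneg_left h4 (by positivity)
    _ = S * (2 * max C 0 + 2) * (3 * C₁ ^ 2) * η ^ 2 * J := by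
        field_simp

/-- Packet SOB. -/
theorem proof (hCUT : CUT_stmt) : SOB_stmt := by
  intro m C N hm hm0 hen hgrow hdens
  obtain ⟨K, hK, hstep⟩ := step hCUT m C hm hm0 hen
  obtain ⟨D, hD⟩ := hgrow
  -- the choice of the density
  obtain ⟨η, hη, hηK⟩ : ∃ η : ℝ, 0 < η ∧ K * η ^ 2 ≤ (1 / 3) ^ (N + 1) := by
    have ht : Tendsto (fun η : ℝ => K * η ^ 2) (𝓝[>] 0) (𝓝 (K * 0 ^ 2)) :=
      ((by fun_prop : Continuous fun η : ℝ => K * η ^ 2).tendsto 0).mono_left nhdsWithin_le_nhds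
    have h0 : K * (0 : ℝ) ^ 2 < (1 / 3) ^ (N + 1) := by
      have : (0 : ℝ) < (1 / 3) ^ (N + 1) := by positivity
      calc K * (0 : ℝ) ^ 2 = 0 := by ring
        _ < _ := this
    obtain ⟨η, h1, h2⟩ := ((ht.eventually (gt_mem_nhds h0)).and self_mem_nhdsWithin).exists
    exact ⟨η, h2, h1.le⟩
  obtain ⟨R₀, hR₀⟩ := hdens (η ^ 3) (by positivity)
  set I : ℝ → ℝ := fun R => ∫ x in ball (0 : E) R, m x ^ 2 with hI
  have hI0 : ∀ R, 0 ≤ I R := fun R => integral_nonneg fun x => sq_nonneg _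
  have hst : ∀ R, R₀ ≤ R → 1 ≤ R → I R ≤ (1 / 3) ^ (N + 1) * I (3 * R) := by
    intro R h1 h2
    refine (hstep R η (by linarith) hη.le (hR₀ R h1)).trans ?_
    exact mul_le_mul_of_nonneg_right hηK (hI0 _)
  have hit : ∀ (n : ℕ) (R : ℝ), R₀ ≤ R → 1 ≤ R → I R ≤ ((1 / 3) ^ (N + 1)) ^ n * I (3 ^ n * R) := by
    intro n
    induction n with
    | zero => intro R _ _; simp
    | succ n ih =>
      intro R h1 h2
      have h3 : R ≤ 3 ^ n * R := by
        have : (1 : ℝ) ≤ 3 ^ n := one_le_pow₀ (by norm_num)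
        nlinarith
      have h4 := hst (3 ^ n * R) (h1.trans h3) (h2.trans h3)
      calc I R ≤ ((1 / 3) ^ (N + 1)) ^ n * I (3 ^ n * R) := ih R h1 h2
        _ ≤ ((1 / 3) ^ (N + 1)) ^ n * ((1 / 3) ^ (N + 1) * I (3 * (3 ^ n * R))) :=
            mul_le_mul_of_nonneg_left h4 (by positivity)
        _ = ((1 / 3) ^ (N + 1)) ^ (n + 1) * I (3 ^ (n + 1) * R) := by
            rw [pow_succ ((1 / 3 : ℝ) ^ (N + 1)) n]
            have : 3 * (3 ^ n * R) = 3 ^ (n + 1) * R := by ring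
            rw [this]
            ring
  have hzero : ∀ R, R₀ ≤ R → 1 ≤ R → I R = 0 := by
    intro R h1 h2
    refine le_antisymm ?_ (hI0 R)
    have hb : ∀ n : ℕ, I R ≤ D * R ^ N * (1 / 3) ^ n := by
      intro n
      have h3 : (1 : ℝ) ≤ 3 ^ n * R := by
        have : (1 : ℝ) ≤ 3 ^ n := one_le_pow₀ (by norm_num)
        nlinarith
      calc I R ≤ ((1 / 3) ^ (N + 1)) ^ n * I (3 ^ n * R) := hit n R h1 h2
        _ ≤ ((1 / 3) ^ (N + 1)) ^ n * (D * (3 ^ n * R) ^ N) :=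
            mul_le_mul_of_nonneg_left (hD _ h3) (by positivity)
        _ = D * R ^ N * (1 / 3) ^ n := by
            have e1 : ((1 / 3 : ℝ) ^ (N + 1)) ^ n = (1 / 3) ^ n * ((1 / 3) ^ n) ^ N := by
              rw [← pow_mul, ← pow_mul, ← pow_add]
              congr 1
              ring
            rw [e1, mul_pow]
            have e2 : ((1 / 3 : ℝ) ^ n) ^ N * ((3 : ℝ) ^ n) ^ N = 1 := by
              rw [← mul_pow, ← mul_pow]
              norm_num
            calc (1 / 3 : ℝ) ^ n * ((1 / 3) ^ n) ^ N * (D * ((3 ^ n) ^ N * R ^ N))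
                = D * R ^ N * (1 / 3) ^ n * (((1 / 3 : ℝ) ^ n) ^ N * ((3 : ℝ) ^ n) ^ N) := by ring
              _ = _ := by rw [e2, mul_one]
    have ht : Tendsto (fun n : ℕ => D * R ^ N * (1 / 3 : ℝ) ^ n) atTop (𝓝 (D * R ^ N * 0)) :=
      (tendsto_pow_atTop_nhds_zero_of_lt_one (by norm_num) (by norm_num)).const_mul _
    rw [mul_zero] at ht
    exact ge_of_tendsto' ht hb
  intro x
  set R : ℝ := max (max R₀ 1) (‖x‖ + 1) with hR
  have h1 : R₀ ≤ R := (le_max_left _ _).trans (le_max_left _ _)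
  have h2 : 1 ≤ R := (le_max_right _ _).trans (le_max_left _ _)
  have h3 : x ∈ ball (0 : E) R := by
    rw [mem_ball, dist_zero_right]
    have : ‖x‖ + 1 ≤ R := le_max_right _ _
    linarith
  have hz := hzero R h1 h2
  have hc : Continuous fun y => m y ^ 2 := hm.continuous.pow 2
  have h4 := (setIntegral_eq_zero_iff_of_nonneg_ae (Eventually.of_forall fun y => sq_nonneg (m y))
    (integrableOn_ball hc 0 R)).1 hz
  have h5 := Measure.eqOn_open_of_ae_eq h4 isOpen_ball hc.continuousOn continuousOn_const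
  have h6 : m x ^ 2 = 0 := h5 h3
  exact pow_eq_zero_iff (by norm_num) |>.1 h6

end Pool.Agent.Helper79.HS3.SOB
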